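import Pool.Agent.Lib.DEn.MainF

/-!
# Descent of the distortion and of Donaldson's energy on the symplectic forms of the projective plane

For a symplectic form `w` in the Fubini-Study class of `ℂP²` and a Riemannian metric `m`, let `s = |w|² / (w ∧ w) ≥ 1` be its distortion and `u` the ratio of the volume forms `w ∧ w / 2` and that of `m`. `NoCrit ν m C`: the distortion of `w` can be
decreased at any rate proportional to `(s² - 1) / u`, at all points simultaneously, with a universal `L²` bound (`Rate`); the maximum of `s` has a slope bounded below (`Slope`); Donaldson's energy satisfies a global gradient inequality (`Grad`).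
-/

set_option autoImplicit false

namespace Pool.Agent.Results.MP_28b04d_gt.DistortionDescent

open MeasureTheory
open Pool.Agent.P28b04d
open Pool.Agent.Lib.Psd (Mat form fs Tan)
open Pool.Agent.Lib.DEn

/-- For every invariant probability measure on the unitary matrices (there is one): every Riemannian metric `m` on the projective plane satisfies `NoCrit ν m C` for some `C` and has at most one critical symplectic form in the
Fubini-Study class; for the Fubini-Study metric `C = 2` and the critical form is the Fubini-Study form. -/
theorem result : (∃ ν : Measure X3, Ha ν) ∧ ∀ ν : Measure X3, Ha ν →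
    (∀ m : Ten, Riem m → (∃ C : ℝ, 0 < C ∧ NoCrit ν m C) ∧
      ∀ β β' : OneF, Symp β → Symp β' → Crit ν m β → Crit ν m β' →
        ∀ P ∈ CP 2, ∀ Y ∈ Tan P, ∀ Z ∈ Tan P, form β P Y Z = form β' P Y Z) ∧
    Riem fsm ∧ NoCrit ν fsm 2 ∧
    ∀ β : OneF, Symp β → Crit ν fsm β →
      ∀ P ∈ CP 2, ∀ Y ∈ Tan P, ∀ Z ∈ Tan P, form β P Y Z = fs P Y Z :=
  ⟨exists_ha, fun _ hν => ⟨fun _ hm => ⟨nocrit_all hν hm, fun _ _ hs hs' hc hc' =>
    crit_all hν hm hs hs' hc hc'⟩, riem_fsm, nocrit_fs hν, fun _ hs hc => crit_fs hν hs hc⟩⟩

end Pool.Agent.Results.MP_28b04d_gt.DistortionDescent
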