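import Pool.Agent.Lib.Pex.AmbP

set_option autoImplicit false

/-!
# Pinched closed two-forms on the complex projective plane

`ℂP²` is the set `CP 2` of rank-one Hermitian projections, as in S12917, `Tan P` its tangent space at `P`, `fs` the
Fubini-Study form. Every closed two-form in the class of `fs` is the restriction of `form β = fs + dβ` for a smooth one-form
`β` on the space of matrices. `PinchedM κ Ω`: at every point the anti-self-dual part of `Ω` (for the Fubini-Study metric) is
at most `κ` times the self-dual part. `NondegM Ω`: `Ω` is non-degenerate on every tangent space of `ℂP²`.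

Every closed two-form `w` in the class of the Fubini-Study form with `|w⁻| ≤ |w⁺| / 100` at every point is symplectic and is
joined to the Fubini-Study form by a smooth path of symplectic forms in the same class.
-/

open scoped ContDiff

namespace Pool.Agent.Results.MP_28b04d_gt.PinchedForms

open Pool.Agent.P28b04d Pool.Agent.Lib.Psd Pool.Agent.Lib.Pex

theorem result : ∀ β : Mat → Mat →L[ℝ] ℝ, ContDiff ℝ (⊤ : ℕ∞) β → PinchedM (1 / 100) (form β) →
    NondegM (form β) ∧
    ∃ K : ℝ × Mat → Mat →L[ℝ] ℝ, ContDiff ℝ (⊤ : ℕ∞) K ∧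
      (∀ P ∈ CP 2, ∀ Y ∈ Tan P, K (0, P) Y = β P Y) ∧
      (∀ P ∈ CP 2, ∀ Y ∈ Tan P, K (1, P) Y = 0) ∧
      ∀ t : ℝ, NondegM (form fun P => K (t, P)) :=
  mainQ

end Pool.Agent.Results.MP_28b04d_gt.PinchedForms
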