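import Pool.Agent.Lib.P28u.FinU

set_option autoImplicit false
set_option maxSynthPendingDepth 3

/-!
# Critical finiteness for symplectic forms on `CP^n`

`W n = ℂ^(n+1)`. A symplectic form `ω` on `CP^n` in the class of the Fubini-Study form `ω0` is given by its connection one-form `α`
on `W n ∖ {0}`: `pr^* ω = dα`. `Sympl α`: `α` is a connection form of the Hopf bundle (smooth, invariant under `z ↦ c z`, `α z z = 0`,
`α z (i z) = 1`) and `dα` is nondegenerate modulo `ℂ z`. `Bound α a`: `|∇ω| ≤ a σ(ω)` at the point `ℂ z`, where `σ(ω)` is the least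
singular value of `ω`, for the Fubini-Study metric; `a = a z`. `Path α β`: a smooth path of symplectic forms of the class.
-/

open MeasureTheory Set Metric
open scoped ContDiff Topology ENNReal

namespace Pool.Agent.Results.MP_28b04d_gt.SymplecticFiniteness

open Pool.Agent.P28b04d Pool.Agent.Lib.P28e

/-- One-forms on `W n = ℂ^(n+1)`. -/
abbrev Form (n : ℕ) : Type := W n → W n →L[ℝ] ℝ

/-- The exterior derivative of the one-form `α`: `(D_p α)(q) - (D_q α)(p)` at `z`. -/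
noncomputable def dal {n : ℕ} (α : Form n) (z p q : W n) : ℝ :=
  fderiv ℝ α z p q - fderiv ℝ α z q p

/-- Connection one-forms of the Hopf bundle `W n - 0 → CP^n` whose curvature `dα` is non-degenerate on `CP^n`. -/
structure Sympl {n : ℕ} (α : Form n) : Prop where
  smooth : ∀ z : W n, z ≠ 0 → ContDiffAt ℝ ∞ α z
  hom : ∀ (c : ℂ) (z v : W n), c ≠ 0 → z ≠ 0 → α (c • z) (c • v) = α z v
  rad : ∀ z : W n, z ≠ 0 → α z z = 0
  rot : ∀ z : W n, z ≠ 0 → α z (Complex.I • z) = 1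
  nondeg : ∀ z v : W n, z ≠ 0 → (∀ w : W n, dal α z v w = 0) → ∃ c : ℂ, v = c • z

/-- Smooth paths of symplectic forms. -/
def Path {n : ℕ} (α β : Form n) : Prop :=
  ∃ K : ℝ × W n → W n →L[ℝ] ℝ, ContDiffOn ℝ ∞ K (univ ×ˢ {0}ᶜ) ∧
    (∀ t : ℝ, Sympl fun z => K (t, z)) ∧ (∀ z : W n, z ≠ 0 → K (0, z) = α z) ∧
    ∀ z : W n, z ≠ 0 → K (1, z) = β z

/-- The pointwise bound `|∇ω| ≤ a σ(ω)`. -/
structure Bound {n : ℕ} (α : Form n) (a : W n → ℝ) : Prop where
  nonneg : ∀ z : W n, 0 ≤ a z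
  le : ∀ z : W n, z ≠ 0 → ∀ v p q r : W n, hip z v = 0 → hip z p = 0 → hip z q = 0 → hip z r = 0 →
    ∃ s : W n, hip z s = 0 ∧ rad s ≤ 1 ∧
      rad z * |fderiv ℝ (fun y => dal α y p q) z v| * rad r ≤
        a z * (rad v * rad p * rad q) * dal α z r s

theorem dal_eq {n : ℕ} (α : Form n) (z p q : W n) :
    dal α z p q = Pool.Agent.Lib.P28t.dw α z p q := rfl

theorem sympl_iff {n : ℕ} (α : Form n) : Sympl α ↔ Pool.Agent.Lib.P28t.Symp α :=
  ⟨fun h => ⟨⟨h.smooth, h.hom, h.rad, h.rot⟩, fun z hz v hv => h.nondeg z v hz hv⟩,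
    fun h => ⟨h.1.smooth, h.1.hom, h.1.rad, h.1.rot, fun z v hz hv => h.2 z hz v hv⟩⟩

theorem path_of {n : ℕ} {α β : Form n} (h : Pool.Agent.Lib.P28t.JoinF α β) : Path α β := by
  obtain ⟨K, h1, h2, h3, h4⟩ := h
  exact ⟨K, h1, fun t => (sympl_iff _).2 (h2 t), h3, h4⟩

theorem fderiv_dal {n : ℕ} {α : Form n} (h : Pool.Agent.Lib.P28t.Con α) {z : W n} (hz : z ≠ 0)
    (v p q : W n) : fderiv ℝ (fun y => dal α y p q) z v =
      fderiv ℝ (Pool.Agent.Lib.P28t.dw α) z v p q := by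
  have h1 : HasFDerivAt (Pool.Agent.Lib.P28t.dw α) (fderiv ℝ (Pool.Agent.Lib.P28t.dw α) z) z :=
    ((h.contDiffAt_dw hz).differentiableAt (by simp)).hasFDerivAt
  have h2 := (h1.clm_apply (hasFDerivAt_const p z)).clm_apply (hasFDerivAt_const q z)
  have h3 : (fun y => dal α y p q) = fun y => Pool.Agent.Lib.P28t.dw α y p q := funext fun y => dal_eq α y p q
  rw [h3, h2.fderiv]
  simp

theorem en_of {n : ℕ} {α : Form n} (h : Pool.Agent.Lib.P28t.Con α) {a : W n → ℝ}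
    (ha : Bound α a) : Pool.Agent.Lib.P28u.EnLe α a := by
  refine ⟨ha.nonneg, fun z hz v p q r hv hp hq hr => ?_⟩
  obtain ⟨s, h1, h2, h3⟩ := ha.le z hz v p q r hv hp hq hr
  refine ⟨s, h1, h2, ?_⟩
  rw [fderiv_dal h hz, dal_eq] at h3
  exact h3

theorem result (n : ℕ) (hn : 2 ≤ n) (E : ℝ) :
    ∃ S : Set (Form n), S.Finite ∧ (∀ β ∈ S, Sympl β) ∧
      ∀ (α : Form n) (a : W n → ℝ), Sympl α → Bound α a →
        ∫⁻ z in {z : W n | rad z < 1}, ENNReal.ofReal (a z) ^ (2 * n) ≤ ENNReal.ofReal E →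
          ∃ β ∈ S, Path α β := by
  obtain ⟨S, h1, h2, h3⟩ := Pool.Agent.Lib.P28u.main_U n hn E
  refine ⟨S, h1, fun β hβ => (sympl_iff β).2 (h2 β hβ), fun α a hα ha hE => ?_⟩
  have hs := (sympl_iff α).1 hα
  obtain ⟨β, hβ, hj⟩ := h3 α a hs (en_of hs.1 ha) hE
  exact ⟨β, hβ, path_of hj⟩

end Pool.Agent.Results.MP_28b04d_gt.SymplecticFiniteness
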